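import Pool.Agent.helper63.Dg4.Spec

/-!
# Row dg4:FOR of the project Dg4 (MP_a87378_lc)
-/

namespace Pool.Agent.helper63.Dg4

open Encodable Pool.Agent.helper63.Diag

/-- forcing a value at `ℓ` by a compatible string -/
theorem FOR_ext (hEXT : EXT_stmt) (E' : ℕ → ℕ → Prop) (p : Cond)
    (D : List ℕ → ℕ × ℕ → Prop) (ℓ z : ℕ) (v : ℕ → ℕ) (hv : v ∈ cls p.n p.Bad) (τ : List ℕ)
    (hτ : Cpt p v τ) (hD : mon D τ (ℓ, z)) (hE : E' z ℓ) :
    ∃ q : Cond, Le q p ∧ Sm q p ∧ ∀ g, Sat q g → Req D E' g := by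
  have hlen : p.σ.length ≤ τ.length := length_le_of_take hτ.1
  have hres : res (fun i => τ.getD i 0) τ.length = τ := by
    apply List.ext_getElem
    · simp
    · intro i h1 h2
      simp [res, List.getElem?_eq_getElem h2]
  have hsat : Sat p (fun i => τ.getD i 0) := by
    refine ⟨res_prefix hτ.1 hres, v, hv, fun i hi => ?_⟩
    by_cases hit : i < τ.length
    · exact hτ.2 i hi hit
    · have h0 : τ.getD i 0 = 0 := by
        rw [List.getD_eq_getElem?_getD, List.getElem?_eq_none (not_lt.1 hit)]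
        rfl
      show Ok p.ab p.fl v i (τ.getD i 0)
      rw [h0]
      exact ⟨fun _ => rfl, fun _ => Or.inl rfl⟩
  obtain ⟨q, h1, h2, h3, -, -, -⟩ := hEXT p _ τ.length hsat hlen
  refine ⟨q, h1, h2, fun g hg _ => ?_⟩
  have h4 : res g q.σ.length = q.σ := hg.1
  rw [h3, hres] at h4
  obtain ⟨k, hk⟩ := (ex_mon (D := D) g (ℓ, z)).1 ⟨τ.length, by rw [h4]; exact hD⟩
  exact ⟨ℓ, z, k, hk, hE⟩

theorem FORCE (hEXT : EXT_stmt) (hCEK : CEK_stmt) (hCMP : CMP_stmt) (hGTU : GTU_stmt)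
    (hNCO : NCO_stmt) : FORCE_stmt := by
  classical
  intro E' hE' hR p hQ D hD
  have hM : PrimrecRel (mon D) := prim_mon hD
  have hMono : Mono (mon D) := fun X a k k' hk h => mon_mono X a k k' hk h
  -- the c.e. relation
  have hW : CE (fun t : ℕ × ℕ × List ℕ => ∀ v, ¬ KF p (mon D) t.1 t.2.1 t.2.2 v) := by
    have h1 := (hCEK p (mon D) hM).comp
      (f := fun t : ℕ × ℕ × List ℕ => (t.1, t.2.1, t.2.2, ([] : List (ℕ × ℕ))))
      (Primrec.pair Primrec.fst (Primrec.pair (Primrec.fst.comp Primrec.snd)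
        (Primrec.pair (Primrec.snd.comp Primrec.snd) (Primrec.const []))))
    refine h1.of_iff (fun t => ?_)
    constructor
    · intro h v hv
      exact h v ⟨hv, by simp⟩
    · rintro h v ⟨hv, -⟩
      exact h v hv
  obtain ⟨ℓ, -, hcase⟩ := hR _ hW
  rcases hcase with ⟨a, γ, -, hWa, hEa, hγ⟩ | ⟨c, hc, hcl, hno⟩
  · obtain ⟨v, hv⟩ := p.ne
    have h1 : ¬ KF p (mon D) ℓ a γ v := hWa v
    have h2 : ¬ ∀ τ, Cpt p v τ → ∀ z < γ.length, mon D τ (ℓ, z) → γ.getD z 0 ≠ a :=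
      fun h => h1 ⟨hv, h⟩
    push Not at h2
    obtain ⟨τ, hτ, z, hz, hDz, hza⟩ := h2
    refine FOR_ext hEXT E' p D ℓ z v hv τ hτ hDz ?_
    have h3 := hγ z hz
    rw [hza] at h3
    exact hE'.trans h3 (hE'.symm hEa)
  · have hKS : ∀ a < ℓ, ∃ v, KS p (mon D) ℓ a c v := by
      intro a ha
      obtain ⟨v, hv, -⟩ := hCMP p (mon D) ℓ a c [] (fun m => by
        have h1 := hno a ha m
        simp only [not_forall, not_not] at h1
        obtain ⟨v, hv⟩ := h1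
        exact ⟨v, hv, by simp⟩)
      exact ⟨v, hv⟩
    by_cases hℓ : ∃ v, KS p (mon D) ℓ ℓ c v
    · have hall : ∀ a ≤ ℓ, ∃ v, KS p (mon D) ℓ a c v := by
        intro a ha
        rcases Nat.lt_or_ge a ℓ with h | h
        · exact hKS a h
        · have : a = ℓ := le_antisymm ha h
          subst this
          exact hℓ
      obtain ⟨f, c', hc', hf, hy⟩ := hGTU E' p (mon D) hM hQ ℓ c hc hall
      obtain ⟨q, h1, h2, h3⟩ := hNCO p (mon D) hM hMono ℓ f c' hc' hf hy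
      refine ⟨q, h1, h2, fun g hg htot => ?_⟩
      obtain ⟨z, k, hk⟩ := htot ℓ
      obtain ⟨k', hk'⟩ := (ex_mon (D := D) g (ℓ, z)).2 ⟨k, hk⟩
      exact absurd hk' (h3 g hg z k')
    · obtain ⟨v, hv⟩ := p.ne
      have h2 : ¬ ∀ τ, Cpt p v τ → ∀ z, mon D τ (ℓ, z) → c z ≠ ℓ :=
        fun h => hℓ ⟨v, hv, h⟩
      push Not at h2
      obtain ⟨τ, hτ, z, hDz, hza⟩ := h2
      exact FOR_ext hEXT E' p D ℓ z v hv τ hτ hDz (hcl z hza)

end Pool.Agent.helper63.Dg4
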